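import Pool.Agent.H174.GP.StH

set_option autoImplicit false

open MeasureTheory ProbabilityTheory Finset Filter Topology

namespace Pool.Agent.H163.GP174

open Pool.Agent.H174.GP

/-- Gaussian tail for one coordinate -/
lemma gmax_one (a : ℝ) : (gaussianReal 0 1).real {x : ℝ | a < |x|} ≤ 4 * Real.exp (-a) := by
  have hm : ∀ t : ℝ, mgf (fun x : ℝ => x) (gaussianReal 0 1) t = Real.exp (t ^ 2 / 2) := by
    intro t
    have h := congrFun (mgf_fun_id_gaussianReal (μ := 0) (v := 1)) t
    rw [h]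
    simp
  have h1 : (gaussianReal 0 1).real {x : ℝ | a ≤ x} ≤ Real.exp (-a) * Real.exp (1 / 2) := by
    have h := measure_ge_le_exp_mul_mgf (μ := gaussianReal 0 1) (X := fun x : ℝ => x) (t := 1) a
      (by norm_num) (integrable_exp_mul_gaussianReal 1)
    rw [hm 1] at h
    refine h.trans (le_of_eq ?_)
    norm_num
  have h2 : (gaussianReal 0 1).real {x : ℝ | x ≤ -a} ≤ Real.exp (-a) * Real.exp (1 / 2) := by
    have h := measure_le_le_exp_mul_mgf (μ := gaussianReal 0 1) (X := fun x : ℝ => x) (t := -1) (-a)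
      (by norm_num) (integrable_exp_mul_gaussianReal (-1))
    rw [hm (-1)] at h
    refine h.trans (le_of_eq ?_)
    norm_num
  have h3 : {x : ℝ | a < |x|} ⊆ {x : ℝ | a ≤ x} ∪ {x : ℝ | x ≤ -a} := by
    intro x hx
    have hx' : a < |x| := hx
    rcases lt_abs.1 hx' with h | h
    · exact Or.inl h.le
    · exact Or.inr (by
        show x ≤ -a
        linarith)
  have h4 : (gaussianReal 0 1).real {x : ℝ | a < |x|} ≤
      (gaussianReal 0 1).real {x : ℝ | a ≤ x} + (gaussianReal 0 1).real {x : ℝ | x ≤ -a} :=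
    (measureReal_mono h3).trans (measureReal_union_le _ _)
  have h5 : Real.exp (1 / 2) ≤ 2 := by
    have h6 : Real.exp (1 / 2) * Real.exp (1 / 2) = Real.exp 1 := by
      rw [← Real.exp_add]
      norm_num
    have h7 := Real.exp_one_lt_d9
    have h8 := Real.exp_pos (1 / 2)
    nlinarith
  have h9 := Real.exp_pos (-a)
  nlinarith

lemma gmax_coord (j : ℕ) (a : ℝ) :
    GA.real {z : ℕ → ℝ | a < |z j|} ≤ 4 * Real.exp (-a) := by
  have hmp : MeasurePreserving (Function.eval j) GA (gaussianReal 0 1) :=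
    measurePreserving_eval_infinitePi (fun _ : ℕ => gaussianReal 0 1) j
  have hs : MeasurableSet {x : ℝ | a < |x|} := measurableSet_lt measurable_const measurable_id.abs
  have h := hmp.measureReal_preimage hs.nullMeasurableSet
  have h2 : Function.eval j ⁻¹' {x : ℝ | a < |x|} = {z : ℕ → ℝ | a < |z j|} := rfl
  rw [h2] at h
  rw [h]
  exact gmax_one a

theorem gp_gmax : Pool.Agent.H174.GP.S_gmax := by
  intro n a _
  have h1 : {z : ℕ → ℝ | ∃ j ∈ Finset.Icc 1 n, a < |z j|} =
      ⋃ j ∈ Finset.Icc 1 n, {z : ℕ → ℝ | a < |z j|} := by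
    ext z
    simp
  rw [h1]
  calc GA.real (⋃ j ∈ Finset.Icc 1 n, {z : ℕ → ℝ | a < |z j|})
      ≤ ∑ j ∈ Finset.Icc 1 n, GA.real {z : ℕ → ℝ | a < |z j|} := measureReal_biUnion_finset_le _ _
    _ ≤ ∑ _j ∈ Finset.Icc 1 n, 4 * Real.exp (-a) := Finset.sum_le_sum fun j _ => gmax_coord j a
    _ = 4 * n * Real.exp (-a) := by
        rw [Finset.sum_const, Nat.card_Icc, nsmul_eq_mul, Nat.add_sub_cancel]
        ring

end Pool.Agent.H163.GP174
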